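import Mathlib

namespace Pool.Agent.Results.MP_7f6698_co.Inf

open Subgroup

/-- `(G; a, b, c)` is a finite rank-3 string C-group of type `{p,p}` whose duality is inner -/
def ISD (p : ℕ) (G : Type) [Group G] (a b c : G) : Prop :=
  Finite G ∧ Subgroup.closure {a, b, c} = ⊤ ∧ orderOf a = 2 ∧ orderOf b = 2 ∧ orderOf c = 2 ∧
    (a * c) ^ 2 = 1 ∧ Subgroup.closure {a, b} ⊓ Subgroup.closure {b, c} = Subgroup.closure {b} ∧
    orderOf (a * b) = p ∧ orderOf (b * c) = p ∧
    ∃ g : G, g⁻¹ * a * g = c ∧ g⁻¹ * b * g = b ∧ g⁻¹ * c * g = a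

variable {p l : ℕ}

abbrev X (p l : ℕ) := ZMod p × ZMod l

/-- reflection in the two fibres next to `j` -/
def xx (j : ZMod p) (h : (2 : ZMod p) ≠ 0) : Equiv.Perm (X p l) :=
  Function.Involutive.toPerm
    (fun z => (z.1, if z.1 = j + 1 then -z.2 - 1 else if z.1 = j - 1 then -z.2 + 1 else z.2))
    (fun z => by
      have : ¬ j + 1 = j - 1 := fun e => h (by linear_combination e)
      by_cases a : z.1 = j + 1 <;> by_cases c : z.1 = j - 1 <;> simp_all [Prod.ext_iff])

def rf (c : ZMod p) : Equiv.Perm (X p l) :=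
  Function.Involutive.toPerm (fun z => (c - z.1, -z.2)) (fun z => by simp)

def ro (c : ZMod p) : Equiv.Perm (X p l) := (Equiv.addRight c).prodCongr (Equiv.refl _)

theorem xx_ap (j : ZMod p) (h) (z : X p l) : xx j h z =
    (z.1, if z.1 = j + 1 then -z.2 - 1 else if z.1 = j - 1 then -z.2 + 1 else z.2) := rfl
theorem rf_ap (c : ZMod p) (z : X p l) : rf c z = (c - z.1, -z.2) := rfl
theorem ro_ap (c : ZMod p) (z : X p l) : ro c z = (z.1 + c, z.2) := rfl

theorem xx_sq (j : ZMod p) (h) : (xx j h * xx j h : Equiv.Perm (X p l)) = 1 :=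
  Equiv.ext (Function.Involutive.toPerm_involutive _)
theorem rf_rf (c d : ZMod p) : (rf c * rf d : Equiv.Perm (X p l)) = ro (c - d) := by
  ext z <;> simp [rf_ap, ro_ap]; ring
theorem ro_ro (c d : ZMod p) : (ro c * ro d : Equiv.Perm (X p l)) = ro (c + d) := by
  ext z <;> simp [ro_ap]; ring
theorem rf_ro (c d : ZMod p) : (rf c * ro d : Equiv.Perm (X p l)) = rf (c - d) := by
  ext z <;> simp [rf_ap, ro_ap]; ring
theorem ro_rf (c d : ZMod p) : (ro c * rf d : Equiv.Perm (X p l)) = rf (c + d) := by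
  ext z <;> simp [rf_ap, ro_ap]; ring
theorem ro_zero : (ro 0 : Equiv.Perm (X p l)) = 1 := by ext z <;> simp [ro_ap]
theorem ro_pow (c : ZMod p) (n : ℕ) : (ro c : Equiv.Perm (X p l)) ^ n = ro ((n : ZMod p) * c) := by
  induction n with
  | zero => simp [ro_zero]
  | succ n ih => rw [pow_succ, ih, ro_ro]; congr 1; push_cast; ring

theorem ro_xx (c j : ZMod p) (h) : (ro c * xx j h : Equiv.Perm (X p l)) = xx (j + c) h * ro c := by
  have a : ∀ m : ZMod p, m + c = j + c + 1 ↔ m = j + 1 := fun m =>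
    ⟨fun e => by linear_combination e, fun e => by linear_combination e⟩
  have b : ∀ m : ZMod p, m + c = j + c - 1 ↔ m = j - 1 := fun m =>
    ⟨fun e => by linear_combination e, fun e => by linear_combination e⟩
  ext z <;> simp [ro_ap, xx_ap, a, b]

theorem rf_xx (c j : ZMod p) (h) : (rf c * xx j h : Equiv.Perm (X p l)) = xx (c - j) h * rf c := by
  have a : ∀ m : ZMod p, c - m = c - j + 1 ↔ m = j - 1 := fun m =>
    ⟨fun e => by linear_combination -e, fun e => by linear_combination -e⟩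
  have b : ∀ m : ZMod p, c - m = c - j - 1 ↔ m = j + 1 := fun m =>
    ⟨fun e => by linear_combination -e, fun e => by linear_combination -e⟩
  have : ¬ j + 1 = j - 1 := fun e => h (by linear_combination e)
  ext z
  · simp [rf_ap, xx_ap]
  · simp only [Equiv.Perm.mul_apply, rf_ap, xx_ap, a, b]
    by_cases u : z.1 = j + 1 <;> by_cases v : z.1 = j - 1 <;> simp_all <;> ring

theorem dih {g : Equiv.Perm (X p l)} (hg : g ∈ Subgroup.closure {rf 0, rf 1}) : ∃ c, g = ro c ∨ g = rf c := by
  induction hg using closure_induction with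
  | mem x hx => rcases hx with rfl | rfl <;> exact ⟨_, Or.inr rfl⟩
  | one => exact ⟨0, Or.inl ro_zero.symm⟩
  | mul x y _ _ a b =>
    obtain ⟨c, rfl | rfl⟩ := a <;> obtain ⟨d, rfl | rfl⟩ := b
    exacts [⟨_, Or.inl (ro_ro _ _)⟩, ⟨_, Or.inr (ro_rf _ _)⟩, ⟨_, Or.inr (rf_ro _ _)⟩,
      ⟨_, Or.inl (rf_rf _ _)⟩]
  | inv x _ a =>
    obtain ⟨c, rfl | rfl⟩ := a
    · exact ⟨-c, Or.inl (inv_eq_of_mul_eq_one_right (by rw [ro_ro, add_neg_cancel, ro_zero]))⟩
    · exact ⟨c, Or.inr (inv_eq_of_mul_eq_one_right (by rw [rf_rf, sub_self, ro_zero]))⟩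

theorem ro_ord (c : ZMod p) (hc : c = 1 ∨ c = -1) : orderOf (ro c : Equiv.Perm (X p l)) = p := by
  have k : ∀ n : ℕ, (ro c : Equiv.Perm (X p l)) ^ n = 1 ↔ p ∣ n := fun n => by
    rw [ro_pow, ← ZMod.natCast_eq_zero_iff]
    refine ⟨fun e => ?_, fun e => by rw [e, zero_mul, ro_zero]⟩
    have := congrArg (fun f : Equiv.Perm (X p l) => (f (0, 0)).1) e
    rcases hc with rfl | rfl <;> simpa [ro_ap] using this
  exact Nat.dvd_antisymm (orderOf_dvd_iff_pow_eq_one.2 ((k p).2 dvd_rfl))
    ((k _).1 (pow_orderOf_eq_one _))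

theorem prod_ap (h) (L : List (ZMod p)) (m : ZMod p) : ∃ e : ZMod l, ∀ t,
    (L.map fun j => xx j h).prod (m, t) = (m, (L.map fun j =>
      (if j = m - 1 then (-1 : ZMod l) else 1) * if j = m + 1 then -1 else 1).prod * t + e) := by
  induction L with
  | nil => exact ⟨0, by simp⟩
  | cons j L ih =>
    obtain ⟨e, he⟩ := ih
    have a : j = m - 1 ↔ m = j + 1 := ⟨fun e => by linear_combination -e, fun e => by linear_combination -e⟩
    have b : j = m + 1 ↔ m = j - 1 := ⟨fun e => by linear_combination -e, fun e => by linear_combination -e⟩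
    have : ¬ j + 1 = j - 1 := fun e => h (by linear_combination e)
    simp only [List.map_cons, List.prod_cons, Equiv.Perm.mul_apply, he, xx_ap, a, b]
    by_cases u : m = j + 1
    · exact ⟨-e - 1, fun t => by rw [if_pos u, if_pos u, if_neg (u ▸ this)]; congr 1; ring⟩
    by_cases v : m = j - 1
    · exact ⟨-e + 1, fun t => by rw [if_neg u, if_neg u, if_pos v, if_pos v]; congr 1; ring⟩
    · exact ⟨e, fun t => by rw [if_neg u, if_neg u, if_neg v, if_neg v]; congr 1; ring⟩

theorem inner [NeZero p] (h) (hp : Odd p) (hl : Odd l) : (xx 0 h : Equiv.Perm (X p l)) ∈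
    Subgroup.closure {xx 0 h * rf 1 * xx 0 h, rf 0, rf 1} := by
  set x : Equiv.Perm (X p l) := xx 0 h with hx
  set G := Subgroup.closure ({x * rf 1 * x, rf 0, rf 1} : Set (Equiv.Perm (X p l))) with hG
  have sq : x * x = 1 := xx_sq _ _
  have sq' : ∀ y, x * (x * y) = y := fun y => by rw [← mul_assoc, sq, one_mul]
  have a : x * rf 1 * x ∈ G := subset_closure (by simp)
  have b : rf 0 ∈ G := subset_closure (by simp)
  have c : rf 1 ∈ G := subset_closure (by simp)
  have nm : ∀ g ∈ G, x * g * x ∈ G := fun g hg => by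
    induction hg using closure_induction with
    | mem g hg =>
      rcases hg with rfl | rfl | rfl
      · simpa [mul_assoc, sq, sq'] using c
      · rw [mul_assoc, hx, rf_xx, sub_zero, ← hx, sq']; exact b
      · exact a
    | one => simp [sq]
    | mul u v _ _ e f => simpa [mul_assoc, sq'] using mul_mem e f
    | inv u _ e => simpa [mul_assoc, inv_eq_of_mul_eq_one_right sq] using inv_mem e
  have r : ∀ j, ro j ∈ G := fun j => by
    have := pow_mem (mul_mem c b) j.val
    rwa [rf_rf, ro_pow, sub_zero, mul_one, ZMod.natCast_zmod_val] at this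
  have xj : ∀ j, xx j h * x ∈ G := fun j => by
    have := mul_mem (r j) (nm _ (r (-j)))
    rwa [← mul_assoc, ← mul_assoc, hx, ro_xx, zero_add, mul_assoc (xx j h), ro_ro, add_neg_cancel,
      ro_zero, mul_one] at this
  have pr : ∀ L : List (ZMod p), (L.map fun j => xx j h).prod * x ^ L.length ∈ G := fun L => by
    induction L with
    | nil => simp
    | cons j L ih => simpa [mul_assoc, sq', pow_succ] using mul_mem (xj j) (nm _ ih)
  have t1 := pr Finset.univ.toList
  choose e he using prod_ap (l := l) h Finset.univ.toList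
  simp only [Finset.prod_map_toList, Finset.prod_mul_distrib, Finset.prod_ite_eq', Finset.mem_univ,
    if_true, neg_mul_neg, one_mul] at he
  generalize (Finset.univ.toList.map fun j => xx j h).prod = T at t1 he
  obtain ⟨k, hk⟩ := hp
  obtain ⟨n, hn⟩ := hl
  rw [Finset.length_toList, Finset.card_univ, ZMod.card, (congrArg (x ^ ·) hk :), pow_succ, pow_mul,
    pow_two, sq, one_pow, one_mul] at t1
  have tp : ∀ (i : ℕ) m t, (T ^ i) (m, t) = (m, t + i * e m) := fun i m => by
    induction i with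
    | zero => simp
    | succ i ih => intro t; rw [pow_succ, Equiv.Perm.mul_apply, he, ih]; congr 1; push_cast; ring
  have tl : T ^ l = 1 := Equiv.ext fun z => by rw [tp]; simp
  have t2 : T ^ 2 ∈ G := by simpa [mul_assoc, sq, sq', pow_two] using mul_mem t1 (nm _ t1)
  have t3 := pow_mem t2 (n + 1)
  rw [← pow_mul, show 2 * (n + 1) = l + 1 by omega, pow_succ, tl, one_mul] at t3
  simpa using mul_mem (inv_mem t3) t1

theorem transfer {P : Type} [Group P] [Finite P] (p : ℕ) (a b c g : P) (h1 : orderOf a = 2)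
    (h2 : orderOf b = 2) (h3 : orderOf c = 2) (h4 : (a * c) ^ 2 = 1)
    (h5 : ∀ x ∈ Subgroup.closure {a, b}, x ∈ Subgroup.closure {b, c} → x = 1 ∨ x = b) (h6 : orderOf (a * b) = p)
    (h7 : orderOf (b * c) = p) (h8 : g ∈ Subgroup.closure {a, b, c}) (h9 : g⁻¹ * a * g = c)
    (h10 : g⁻¹ * b * g = b) (h11 : g⁻¹ * c * g = a) :
    ISD p (Subgroup.closure ({a, b, c} : Set P)) ⟨a, subset_closure (by simp)⟩ ⟨b, subset_closure (by simp)⟩
      ⟨c, subset_closure (by simp)⟩ := by
  have m : ∀ u v x : Subgroup.closure ({a, b, c} : Set P), x ∈ Subgroup.closure {u, v} → x.1 ∈ Subgroup.closure {u.1, v.1} :=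
    fun u v x hx => by
      have := mem_map_of_mem (Subgroup.closure ({a, b, c} : Set P)).subtype hx
      rwa [MonoidHom.map_closure, Set.image_pair] at this
  refine ⟨inferInstance, ?_, by rw [orderOf_mk, h1], by rw [orderOf_mk, h2], by rw [orderOf_mk, h3],
    Subtype.ext h4, le_antisymm (fun x hx => ?_) (le_inf (closure_mono (Set.subset_insert _ _))
      (closure_mono (Set.singleton_subset_iff.2 (Set.mem_insert _ _)))), (orderOf_coe _).symm.trans h6, (orderOf_coe _).symm.trans h7,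
    ⟨g, h8⟩, Subtype.ext h9, Subtype.ext h10, Subtype.ext h11⟩
  · refine Eq.trans (congrArg Subgroup.closure ?_) (closure_closure_coe_preimage (k := ({a, b, c} : Set P)))
    ext x
    simp only [Subtype.ext_iff, Set.mem_insert_iff, Set.mem_singleton_iff, Set.mem_preimage]
  · obtain ⟨x1, x2⟩ := mem_inf.1 hx
    have y1 := m _ _ _ x1
    have y2 := m _ _ _ x2
    dsimp only at y1 y2
    rcases h5 x.1 y1 y2 with e | e
    · rw [show x = 1 from Subtype.ext e]; exact one_mem _
    · exact subset_closure (Subtype.ext e)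

theorem nz {q : ℕ} (k : ℕ) (h0 : 0 < k) (h : k < q) : (k : ZMod q) ≠ 0 := fun e =>
  absurd (Nat.le_of_dvd h0 ((ZMod.natCast_eq_zero_iff _ _).1 e)) (by omega)

theorem isd (hp : Odd p) (h5 : 5 ≤ p) (hl : Odd l) (h3 : 3 ≤ l) (h : (2 : ZMod p) ≠ 0) :
    ISD p (Subgroup.closure ({xx 0 h * rf 1 * xx 0 h, rf 0, rf 1} : Set (Equiv.Perm (X p l))))
      ⟨xx 0 h * rf 1 * xx 0 h, subset_closure (by simp)⟩ ⟨rf 0, subset_closure (by simp)⟩
      ⟨rf 1, subset_closure (by simp)⟩ := by
  have : NeZero p := ⟨by omega⟩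
  have : NeZero l := ⟨by omega⟩
  have p1 : (1 : ZMod p) ≠ 0 := by simpa using nz (q := p) 1 (by omega) (by omega)
  have p3 : (3 : ZMod p) ≠ 0 := by simpa using nz (q := p) 3 (by omega) (by omega)
  have l1 : (1 : ZMod l) ≠ 0 := by simpa using nz (q := l) 1 (by omega) (by omega)
  have l2 : (2 : ZMod l) ≠ 0 := by simpa using nz (q := l) 2 (by omega) (by omega)
  set x : Equiv.Perm (X p l) := xx 0 h with hx
  have sq : x * x = 1 := xx_sq _ _
  have sq' : ∀ y, x * (x * y) = y := fun y => by rw [← mul_assoc, sq, one_mul]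
  have iv : x⁻¹ = x := inv_eq_of_mul_eq_one_right sq
  have cb : x * rf 0 * x = rf 0 := by rw [mul_assoc, hx, rf_xx, sub_zero, ← hx, sq']
  have oc : ∀ y, orderOf (x * y * x) = orderOf y := fun y => by
    have := (MulAut.conj x).orderOf_eq y
    rwa [MulAut.conj_apply, iv] at this
  have o2 : ∀ c, orderOf (rf c : Equiv.Perm (X p l)) = 2 := fun c =>
    orderOf_eq_prime (by rw [pow_two, rf_rf, sub_self, ro_zero]) fun e => l2 (by
      have := congrArg (fun f : Equiv.Perm (X p l) => (f (0, 1)).2) e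
      simp only [rf_ap, Equiv.Perm.one_apply] at this
      linear_combination -this)
  refine transfer p _ _ _ x (by rw [oc, o2]) (o2 _) (o2 _) ?_ (fun y y1 y2 => ?_) ?_
    (by rw [rf_rf, ro_ord _ (by simp)]) (inner h hp hl) (by simp [iv, mul_assoc, sq, sq'])
    (by rw [iv, cb]) (by rw [iv])
  · have e : x * rf 1 * x * rf 1 = x * xx 1 h := by
      rw [mul_assoc x, hx, rf_xx, sub_zero, mul_assoc, mul_assoc, rf_rf, sub_self, ro_zero, mul_one]
    have c : xx 1 h * x = x * xx 1 h := by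
      ext z
      · rfl
      simp only [hx, Equiv.Perm.mul_apply, xx_ap]
      by_cases a : z.1 = 1 + 1
      · rw [if_neg (show ¬ z.1 = 0 + 1 from fun b => p1 (by linear_combination b - a)),
          if_neg (show ¬ z.1 = 0 - 1 from fun b => p3 (by linear_combination b - a)),
          if_neg (show ¬ z.1 = 0 + 1 from fun b => p1 (by linear_combination b - a)),
          if_neg (show ¬ z.1 = 0 - 1 from fun b => p3 (by linear_combination b - a))]
      by_cases d : z.1 = 1 - 1
      · rw [if_neg (show ¬ z.1 = 0 + 1 from fun b => p1 (by linear_combination d - b)),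
          if_neg (show ¬ z.1 = 0 - 1 from fun b => p1 (by linear_combination b - d)),
          if_neg (show ¬ z.1 = 0 + 1 from fun b => p1 (by linear_combination d - b)),
          if_neg (show ¬ z.1 = 0 - 1 from fun b => p1 (by linear_combination b - d))]
      simp only [if_neg a, if_neg d]
    rw [e, pow_two, mul_assoc, ← mul_assoc (xx 1 h), c, mul_assoc, xx_sq, mul_one, sq]
  · have z : (y (1, 0)).2 = 0 := by
      obtain ⟨c, rfl | rfl⟩ := dih y2 <;> simp [ro_ap, rf_ap]
    have := mem_map_of_mem (MulAut.conj x).toMonoidHom y1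
    rw [MonoidHom.map_closure, Set.image_pair, Set.pair_comm] at this
    simp only [MulEquiv.toMonoidHom_eq_coe, MonoidHom.coe_coe, MulAut.conj_apply, iv, cb] at this
    rw [show x * (x * rf 1 * x) * x = rf 1 by simp [mul_assoc, sq, sq']] at this
    have ey : y = x * (x * y * x) * x := by simp [mul_assoc, sq, sq']
    obtain ⟨c, e | e⟩ := dih this <;> rw [e] at ey <;> rw [ey] at z <;>
      simp only [hx, Equiv.Perm.mul_apply, xx_ap, ro_ap, rf_ap, zero_add, if_true] at z <;>
      split_ifs at z with u v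
    · left
      rw [ey, show c = 0 by linear_combination u, ro_zero, mul_one, sq]
    · exact absurd (by linear_combination z) l2
    · exact absurd (by linear_combination -z) l1
    · exact absurd (by linear_combination -z) l2
    · right
      rw [ey, show c = 0 by linear_combination v, cb]
    · exact absurd (by linear_combination z) l1
  · rw [← cb, show x * rf 1 * x * (x * rf 0 * x) = x * (rf 1 * rf 0) * x by simp [mul_assoc, sq'],
      oc, rf_rf, ro_ord _ (by simp)]

theorem word (h5 : 5 ≤ p) (hl : Odd l) (h : (2 : ZMod p) ≠ 0) (k : ℕ) :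
    (((xx 0 h * rf 1 * xx 0 h * rf 0) ^ 2 * ((rf 1 * rf 0) ^ 2)⁻¹ : Equiv.Perm (X p l)) ^ 2) ^ k = 1
      ↔ l ∣ k := by
  have p4 : (4 : ZMod p) ≠ 0 := by simpa using nz (q := p) 4 (by omega) (by omega)
  have e : (xx 0 h * rf 1 * xx 0 h * rf 0 : Equiv.Perm (X p l)) ^ 2 * ((rf 1 * rf 0) ^ 2)⁻¹ =
      xx 0 h * xx 2 h := by
    have c : (xx 0 h * rf 0 : Equiv.Perm (X p l)) = rf 0 * xx 0 h := by rw [rf_xx, sub_zero]
    rw [mul_inv_eq_iff_eq_mul, mul_assoc _ (xx 0 h), c, ← mul_assoc, mul_assoc _ (rf 1), rf_rf,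
      pow_two, pow_two, ro_ro]
    simp only [mul_assoc]
    rw [← mul_assoc (xx 0 h) (xx 0 h), xx_sq, one_mul, ← mul_assoc (ro _), ro_ro, ro_xx]
    norm_num
  have w : ∀ z : X p l, ((xx 0 h * xx 2 h : Equiv.Perm (X p l)) ^ 2) z =
      (z.1, if z.1 = 1 then z.2 - 4 else z.2) := fun z => by
    simp only [pow_two, Equiv.Perm.mul_apply, xx_ap, zero_add, show (2 : ZMod p) - 1 = 1 by ring]
    congr 1
    split_ifs with a b c d
    · exact absurd (by linear_combination a - b) h
    · ring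
    · exact absurd (by linear_combination c - d) p4
    all_goals ring
  rw [e]
  have v : ∀ (k : ℕ) (z : X p l), (((xx 0 h * xx 2 h : Equiv.Perm (X p l)) ^ 2) ^ k) z =
      (z.1, if z.1 = 1 then z.2 - 4 * k else z.2) := fun k => by
    induction k with
    | zero => simp
    | succ k ih =>
      intro z
      rw [pow_succ, Equiv.Perm.mul_apply, w, ih]
      congr 1
      split_ifs
      · push_cast; ring
      · rfl
  rw [← ZMod.natCast_eq_zero_iff]
  refine ⟨fun q => ?_, fun q => Equiv.ext fun z => by rw [v, q]; simp⟩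
  have := congrArg Prod.snd (v k (1, 0))
  rw [q] at this
  have u : IsUnit ((2 : ℕ) : ZMod l) := (ZMod.isUnit_iff_coprime 2 l).2 (Nat.coprime_two_left.2 hl)
  exact (u.mul u).mul_right_eq_zero.1 (by simp at this; push_cast; linear_combination this)

theorem result (p : ℕ) (hp : Odd p) (h5 : 5 ≤ p) :
    ∃ (G : ℕ → Type) (_ : ∀ n, Group (G n)) (a b c : ∀ n, G n),
      (∀ n, ISD p (G n) (a n) (b n) (c n)) ∧
      ∀ n m, (∃ f : G n ≃* G m, f (a n) = a m ∧ f (b n) = b m ∧ f (c n) = c m) → n = m := by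
  have h : (2 : ZMod p) ≠ 0 := by simpa using nz (q := p) 2 (by omega) (by omega)
  have o : ∀ n, Odd (2 * n + 3) := fun n => ⟨n + 1, by ring⟩
  refine ⟨fun n => Subgroup.closure ({xx 0 h * rf 1 * xx 0 h, rf 0, rf 1} :
      Set (Equiv.Perm (X p (2 * n + 3)))), fun _ => inferInstance,
    fun n => ⟨xx 0 h * rf 1 * xx 0 h, subset_closure (by simp)⟩,
    fun n => ⟨rf 0, subset_closure (by simp)⟩, fun n => ⟨rf 1, subset_closure (by simp)⟩,
    fun n => isd hp h5 (o n) (by omega) h, ?_⟩
  rintro n m ⟨f, f1, f2, f3⟩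
  have k : ∀ k, 2 * n + 3 ∣ k ↔ 2 * m + 3 ∣ k := fun k => by
    rw [← word h5 (o n) h, ← word h5 (o m) h]
    have := f.map_eq_one_iff (x := (((⟨xx 0 h * rf 1 * xx 0 h, subset_closure (by simp)⟩ *
      ⟨rf 0, subset_closure (by simp)⟩) ^ 2 * ((⟨rf 1, subset_closure (by simp)⟩ *
      ⟨rf 0, subset_closure (by simp)⟩) ^ 2)⁻¹) ^ 2) ^ k)
    simp only [map_pow, map_mul, map_inv, f1, f2, f3, Subtype.ext_iff] at this
    exact this.symm
  have := Nat.dvd_antisymm ((k _).2 dvd_rfl) ((k _).1 dvd_rfl)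
  omega

end Pool.Agent.Results.MP_7f6698_co.Inf
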